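import Mathlib

/-!
# Zero-sum subsequences avoiding prescribed length residues: a counterexample

For `G = C_2 ⊕ C_2 ⊕ C_2 ⊕ C_6` we have `n_1 = 2` and `D(G) ≤ 9`, and the sequence over `G`
consisting of the seven elements `(v, 4)`, `v ∈ C_2^3 \ {0}`, and of `(0, 5)` three times has length
`10` but no non-empty zero-sum subsequence of even length. So the statement of Q1 fails for `G`,
`i = 2`, `𝒜 = {1}`.
-/

set_option autoImplicit false

namespace Pool.Agent.Results.MP_9fddba_co.Refuted

open Finset

/-- The group `C_{n_1} ⊕ ⋯ ⊕ C_{n_r}`. -/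
abbrev Grp {r : ℕ} (n : Fin r → ℕ) : Type := (j : Fin r) → ZMod (n j)

/-- `1 < n_1 ∣ n_2 ∣ ⋯ ∣ n_{r+1}`. -/
def IsInvariants {r : ℕ} (n : Fin (r + 1) → ℕ) : Prop :=
  1 < n 0 ∧ ∀ j : Fin r, n j.castSucc ∣ n j.succ

/-- The Davenport constant: the least positive `t` such that every sequence of length at least `t`
has a non-empty zero-sum subsequence. -/
noncomputable def davenport (G : Type) [AddCommGroup G] : ℕ :=
  sInf {t : ℕ | 0 < t ∧ ∀ S : Multiset G, t ≤ S.card → ∃ T ≤ S, T ≠ 0 ∧ T.sum = 0}

/-- The statement of Q1. -/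
def Q1 : Prop :=
  ∀ (r : ℕ) (n : Fin (r + 1) → ℕ), IsInvariants n →
    ∀ i : ℕ, 1 ≤ i → i ≤ n 0 →
    ∀ S : Multiset (Grp n), S.card = davenport (Grp n) + i - 1 →
    ∀ A : Finset ℕ, A ⊆ Finset.Icc 1 (n 0 - 1) → A.card = i - 1 →
    ∃ T ≤ S, T ≠ 0 ∧ T.sum = 0 ∧ ∀ b ∈ A, ¬ T.card ≡ b [MOD n 0]

/-! ### The character sum argument -/

/-- the space `F_2^5` -/
abbrev E := Fin 5 → ZMod 2

/-- the standard pairing of `F_2^5` -/
def dot (a c : E) : ZMod 2 := ∑ j, a j * c j

/-- the indicator of `dot a c = 1` in `F_3` -/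
def ind (z : ZMod 2) : ZMod 3 := if z = 0 then 0 else 1

/-- the sign of an element of `F_2` in `F_3` -/
def sg (z : ZMod 2) : ZMod 3 := if z = 0 then 1 else -1

theorem ind_eq (z : ZMod 2) : ind z = sg z - 1 := by
  revert z; decide

theorem sg_add (z w : ZMod 2) : sg (z + w) = sg z * sg w := by
  revert z w; decide

theorem dot_add (a b c : E) : dot (a + b) c = dot a c + dot b c := by
  simp only [dot, Pi.add_apply, add_mul, Finset.sum_add_distrib]

theorem dot_add_right (a b c : E) : dot a (b + c) = dot a b + dot a c := by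
  simp only [dot, Pi.add_apply, mul_add, Finset.sum_add_distrib]

theorem sum_sg (a : E) (ha : a ≠ 0) : ∑ c, sg (dot a c) = 0 := by
  obtain ⟨j, hj⟩ : ∃ j, a j ≠ 0 := by
    by_contra h
    push Not at h
    exact ha (funext h)
  have hj1 : a j = 1 := (by decide : ∀ z : ZMod 2, z ≠ 0 → z = 1) _ hj
  obtain ⟨e, he⟩ : ∃ e : E, dot a e = 1 := by
    refine ⟨Pi.single j 1, ?_⟩
    unfold dot
    rw [Finset.sum_eq_single j]
    · rw [Pi.single_eq_same, hj1, mul_one]
    · intro k _ hk
      rw [Pi.single_eq_of_ne hk, mul_zero]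
    · intro h; exact absurd (Finset.mem_univ _) h
  have h2 : ∀ c : E, sg (dot a c) = -sg (dot a (e + c)) := by
    intro c
    rw [dot_add_right, sg_add, he]
    generalize sg (dot a c) = z
    revert z; decide
  have h1 : ∑ c, sg (dot a c) = ∑ c, sg (dot a (e + c)) :=
    (Fintype.sum_equiv (Equiv.addLeft e) _ _ (fun c => rfl)).symm
  have h4 : ∑ c, sg (dot a c) = -∑ c, sg (dot a (e + c)) := by
    rw [← Finset.sum_neg_distrib]
    exact Finset.sum_congr rfl fun c _ => h2 c
  rw [← h1] at h4
  exact (by decide : ∀ z : ZMod 3, z = -z → z = 0) _ h4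

theorem sum_sg' (a : E) : ∑ c, sg (dot a c) = if a = 0 then -1 else 0 := by
  split_ifs with h
  · subst h
    have : ∀ c : E, sg (dot 0 c) = 1 := fun c => by simp [dot, sg]
    simp only [this, Finset.sum_const, Finset.card_univ]
    decide
  · exact sum_sg a h

theorem key (a : Fin 9 → E) (t : Fin 9 → ZMod 3) :
    ∃ c : E, c ≠ 0 ∧ ∑ i, t i * ind (dot (a i) c) = 0 := by
  classical
  by_contra hcon
  push Not at hcon
  -- the coefficient function
  let m : E → ZMod 3 := fun b => ∑ i, t i * ((if a i = b then 1 else 0) - (if b = 0 then 1 else 0))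
  have hW : ∀ c : E, ∑ i, t i * ind (dot (a i) c) = ∑ b, m b * sg (dot b c) := by
    intro c
    simp only [m, Finset.sum_mul]
    rw [Finset.sum_comm]
    refine Finset.sum_congr rfl fun i _ => ?_
    have : ∀ b : E, t i * ((if a i = b then (1 : ZMod 3) else 0) - (if b = 0 then 1 else 0)) *
        sg (dot b c) = t i * ((if a i = b then sg (dot b c) else 0) -
          (if b = 0 then sg (dot b c) else 0)) := by
      intro b
      split_ifs <;> ring
    simp only [this]
    rw [← Finset.mul_sum, Finset.sum_sub_distrib, Finset.sum_ite_eq, Finset.sum_ite_eq']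
    simp only [Finset.mem_univ, if_true]
    have h0 : sg (dot 0 c) = 1 := by simp [dot, sg]
    rw [h0, ind_eq]
  have hW1 : ∀ c : E, (∑ b, m b * sg (dot b c)) ^ 2 = if c = 0 then 0 else 1 := by
    intro c
    split_ifs with hc
    · rw [← hW c, hc]
      have : ∀ i, ind (dot (a i) 0) = 0 := fun i => by simp [dot, ind]
      simp [this]
    · have := hcon c hc
      rw [hW c] at this
      exact (by decide : ∀ z : ZMod 3, z ≠ 0 → z ^ 2 = 1) _ this
  -- the autocorrelation
  have hR : ∀ x : E, ∑ b, m b * m (b + x) = if x = 0 then -1 else 1 := by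
    intro x
    have h1 : ∑ c, (∑ b, m b * sg (dot b c)) ^ 2 * sg (dot x c) = -∑ b, m b * m (b + x) := by
      have h2 : ∀ c : E, (∑ b, m b * sg (dot b c)) ^ 2 * sg (dot x c) =
          ∑ b, ∑ b', m b * m b' * sg (dot (b + b' + x) c) := by
        intro c
        rw [sq, Finset.sum_mul_sum, Finset.sum_mul]
        refine Finset.sum_congr rfl fun b _ => ?_
        rw [Finset.sum_mul]
        refine Finset.sum_congr rfl fun b' _ => ?_
        rw [dot_add, dot_add, sg_add, sg_add]
        ring
      simp only [h2]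
      rw [Finset.sum_comm, ← Finset.sum_neg_distrib]
      refine Finset.sum_congr rfl fun b _ => ?_
      rw [Finset.sum_comm]
      simp only [← Finset.mul_sum, sum_sg']
      rw [Finset.sum_eq_single (b + x)]
      · have : b + (b + x) + x = 0 := by
          funext j
          simp only [Pi.add_apply, Pi.zero_apply]
          generalize b j = p
          generalize x j = q
          revert p q; decide
        rw [if_pos this]
        ring
      · intro b' _ hb'
        rw [if_neg, mul_zero]
        intro h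
        apply hb'
        funext j
        have := congrFun h j
        simp only [Pi.add_apply, Pi.zero_apply] at this ⊢
        revert this
        generalize b j = p
        generalize x j = q
        generalize b' j = r
        revert p q r; decide
      · intro h; exact absurd (Finset.mem_univ _) h
    have h3 : ∑ c, (∑ b, m b * sg (dot b c)) ^ 2 * sg (dot x c) =
        (if x = 0 then -1 else 0) - 1 := by
      have h4 : ∀ c : E, (∑ b, m b * sg (dot b c)) ^ 2 * sg (dot x c) =
          sg (dot x c) - if c = 0 then 1 else 0 := by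
        intro c
        rw [hW1]
        split_ifs with hc
        · subst hc; simp [dot, sg]
        · ring
      simp only [h4]
      rw [Finset.sum_sub_distrib, sum_sg', Finset.sum_ite_eq']
      simp
    have h5 := h1.symm.trans h3
    split_ifs at h5 ⊢ with hx
    · exact (by decide : ∀ z : ZMod 3, -z = -1 - 1 → z = -1) _ h5
    · exact (by decide : ∀ z : ZMod 3, -z = 0 - 1 → z = 1) _ h5
  -- the support
  let Q : Finset E := univ.filter fun b => m b ≠ 0
  have hQ10 : Q.card ≤ 10 := by
    have hsub : Q ⊆ insert 0 (univ.image a) := by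
      intro b hb
      by_contra h
      rw [Finset.mem_insert, not_or] at h
      apply (Finset.mem_filter.1 hb).2
      refine Finset.sum_eq_zero fun i _ => ?_
      rw [if_neg h.1, if_neg]
      · simp
      · intro hi
        exact h.2 (Finset.mem_image.2 ⟨i, Finset.mem_univ _, hi⟩)
    refine (Finset.card_le_card hsub).trans ((Finset.card_insert_le _ _).trans ?_)
    have := (Finset.card_image_le (s := (univ : Finset (Fin 9))) (f := a))
    simp only [Finset.card_univ, Fintype.card_fin] at this
    omega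
  have hQ2 : ((Q.card : ℕ) : ZMod 3) = -1 := by
    have h0 := hR 0
    rw [if_pos rfl] at h0
    rw [← h0]
    have : ∀ b : E, m b * m (b + 0) = if m b ≠ 0 then 1 else 0 := by
      intro b
      rw [add_zero]
      exact (by decide : ∀ z : ZMod 3, z * z = if z ≠ 0 then 1 else 0) _
    simp only [this]
    rw [Finset.sum_boole]
  have hQ8 : Q.card ≤ 8 := by
    by_contra h
    have : Q.card = 9 ∨ Q.card = 10 := by omega
    rcases this with h | h <;> rw [h] at hQ2 <;> revert hQ2 <;> decide
  have himg : univ.erase (0 : E) ⊆ (Finset.powersetCard 2 Q).image fun s => ∑ b ∈ s, b := by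
    intro x hx
    have hx0 : x ≠ 0 := (Finset.mem_erase.1 hx).1
    have h0 := hR x
    rw [if_neg hx0] at h0
    obtain ⟨b, hb⟩ : ∃ b, m b * m (b + x) ≠ 0 := by
      by_contra h
      push Not at h
      rw [Finset.sum_eq_zero fun b _ => h b] at h0
      exact absurd h0 (by decide)
    have hb1 : m b ≠ 0 := left_ne_zero_of_mul hb
    have hb2 : m (b + x) ≠ 0 := right_ne_zero_of_mul hb
    have hne : b ≠ b + x := by
      intro h
      exact hx0 (by simpa using h)
    refine Finset.mem_image.2 ⟨{b, b + x}, Finset.mem_powersetCard.2 ⟨?_, Finset.card_pair hne⟩, ?_⟩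
    · intro y hy
      rw [Finset.mem_insert, Finset.mem_singleton] at hy
      rcases hy with rfl | rfl
      · exact Finset.mem_filter.2 ⟨Finset.mem_univ _, hb1⟩
      · exact Finset.mem_filter.2 ⟨Finset.mem_univ _, hb2⟩
    · rw [Finset.sum_pair hne]
      funext j
      simp only [Pi.add_apply]
      exact (by decide : ∀ p q : ZMod 2, p + (p + q) = q) _ _
  have h1 := (Finset.card_le_card himg).trans Finset.card_image_le
  rw [Finset.card_powersetCard, Finset.card_erase_of_mem (Finset.mem_univ _)] at h1
  have h2 : (univ : Finset E).card = 32 := by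
    rw [Finset.card_univ, Fintype.card_fun, ZMod.card, Fintype.card_fin]; norm_num
  rw [h2] at h1
  have h3 : Q.card.choose 2 ≤ Nat.choose 8 2 := Nat.choose_le_choose 2 hQ8
  have h4 : Nat.choose 8 2 = 28 := by decide
  omega

/-! ### The Davenport constant of `C_2^4 ⊕ C_3` is at most 9 -/

theorem eq_one_of_ne : ∀ z : ZMod 2, z ≠ 0 → z = 1 := by decide

theorem exists_fin {G : Type} [AddCommGroup G] (φ : G →+ (Fin 4 → ZMod 2)) (ψ : G →+ ZMod 3)
    (hinj : ∀ x, φ x = 0 → ψ x = 0 → x = 0) (g : Fin 9 → G) :
    ∃ I : Finset (Fin 9), I.Nonempty ∧ ∑ i ∈ I, g i = 0 := by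
  classical
  have : Fact (Nat.Prime 2) := ⟨Nat.prime_two⟩
  let L : (Fin 9 → ZMod 2) →ₗ[ZMod 2] (Fin 4 → ZMod 2) :=
    Fintype.linearCombination (ZMod 2) (fun i => φ (g i))
  have hL : ∀ x, L x = ∑ i, x i • φ (g i) := fun x => by
    simp only [L, Fintype.linearCombination_apply]
  have hrank := L.finrank_range_add_finrank_ker
  have hrange : Module.finrank (ZMod 2) (LinearMap.range L) ≤ 4 := by
    have := (LinearMap.range L).finrank_le
    simpa using this
  have h9 : Module.finrank (ZMod 2) (Fin 9 → ZMod 2) = 9 := by simp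
  have hK : 5 ≤ Module.finrank (ZMod 2) (LinearMap.ker L) := by omega
  let b := Module.finBasis (ZMod 2) (LinearMap.ker L)
  let v : Fin 5 → LinearMap.ker L := fun j => b (Fin.castLE hK j)
  have hv : LinearIndependent (ZMod 2) v :=
    b.linearIndependent.comp _ (Fin.castLE_injective hK)
  obtain ⟨c, hc0, hc⟩ := key (fun i j => (v j : Fin 9 → ZMod 2) i) (fun i => ψ (g i))
  -- the kernel vector
  let X : LinearMap.ker L := ∑ j, c j • v j
  have hX0 : X ≠ 0 := by
    intro h
    exact hc0 (funext (Fintype.linearIndependent_iff.1 hv c h))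
  have hXi : ∀ i, (X : Fin 9 → ZMod 2) i = dot (fun j => (v j : Fin 9 → ZMod 2) i) c := by
    intro i
    simp only [X, Submodule.coe_sum, Submodule.coe_smul, Finset.sum_apply, Pi.smul_apply,
      smul_eq_mul, dot]
    exact Finset.sum_congr rfl fun j _ => mul_comm _ _
  refine ⟨univ.filter fun i => (X : Fin 9 → ZMod 2) i ≠ 0, ?_, ?_⟩
  · by_contra h
    rw [Finset.not_nonempty_iff_eq_empty, Finset.filter_eq_empty_iff] at h
    apply hX0
    ext i
    have := h (Finset.mem_univ i)
    push Not at this
    simpa using this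
  · apply hinj
    · rw [map_sum, Finset.sum_filter]
      have h1 : ∀ i, (if (X : Fin 9 → ZMod 2) i ≠ 0 then φ (g i) else 0) =
          (X : Fin 9 → ZMod 2) i • φ (g i) := by
        intro i
        split_ifs with hi
        · rw [eq_one_of_ne _ hi, one_smul]
        · rw [not_not.1 hi, zero_smul]
      simp only [h1]
      rw [← hL]
      exact X.2
    · rw [map_sum, Finset.sum_filter, ← hc]
      refine Finset.sum_congr rfl fun i _ => ?_
      rw [hXi, ind]
      split_ifs <;> simp_all

theorem exists_zero_sum {G : Type} [AddCommGroup G] (φ : G →+ (Fin 4 → ZMod 2)) (ψ : G →+ ZMod 3)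
    (hinj : ∀ x, φ x = 0 → ψ x = 0 → x = 0) (S : Multiset G) (hS : 9 ≤ S.card) :
    ∃ T ≤ S, T ≠ 0 ∧ T.sum = 0 := by
  classical
  induction S using Quotient.inductionOn with
  | h l =>
    change 9 ≤ l.length at hS
    let g : Fin 9 → G := fun i => l.get ⟨i, by omega⟩
    obtain ⟨I, hI, hsum⟩ := exists_fin φ ψ hinj g
    refine ⟨I.val.map g, ?_, ?_, hsum⟩
    · refine (Multiset.map_le_map (Finset.val_le_iff.2 (Finset.subset_univ I))).trans ?_
      have h1 : (univ : Finset (Fin 9)).val.map g = ((List.ofFn g : List G) : Multiset G) := by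
        rw [Fin.univ_val_map]
      rw [h1]
      refine (List.Sublist.subperm ?_)
      have h2 : List.ofFn g = l.take 9 := by
        apply List.ext_get
        · simp; omega
        · intro n h1 h2
          simp only [List.get_eq_getElem, List.getElem_ofFn, List.getElem_take, g]
      rw [h2]
      exact List.take_sublist _ _
    · intro h
      have := congrArg Multiset.card h
      rw [Multiset.card_map, Multiset.card_zero, Finset.card_val, Finset.card_eq_zero] at this
      exact hI.ne_empty this

/-! ### The counterexample -/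

/-- the invariants `2, 2, 2, 6` -/
def inv : Fin 4 → ℕ := ![2, 2, 2, 6]

theorem two_dvd (j : Fin 4) : 2 ∣ inv j := by revert j; decide

/-- the projection to `C_2^4` -/
def phi : Grp inv →+ (Fin 4 → ZMod 2) where
  toFun x j := ZMod.castHom (two_dvd j) (ZMod 2) (x j)
  map_zero' := by funext j; simp
  map_add' x y := by
    funext j
    exact map_add (ZMod.castHom (two_dvd j) (ZMod 2)) (x j) (y j)

/-- the projection to `C_3` -/
def psi : Grp inv →+ ZMod 3 where
  toFun x := ZMod.castHom (by decide : 3 ∣ inv 3) (ZMod 3) (x 3)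
  map_zero' := by simp
  map_add' x y := map_add (ZMod.castHom (by decide : 3 ∣ inv 3) (ZMod 3)) (x 3) (y 3)

theorem inj (x : Grp inv) (h1 : phi x = 0) (h2 : psi x = 0) : x = 0 := by
  have h1' : ∀ j, ZMod.castHom (two_dvd j) (ZMod 2) (x j) = 0 := fun j => congrFun h1 j
  have h2' : ZMod.castHom (by decide : 3 ∣ inv 3) (ZMod 3) (x 3) = 0 := h2
  have e0 : ∀ z : ZMod 2, ZMod.castHom (dvd_refl 2) (ZMod 2) z = 0 → z = 0 := by decide
  have e3 : ∀ z : ZMod 6, ZMod.castHom (by decide : 2 ∣ 6) (ZMod 2) z = 0 →
    ZMod.castHom (by decide : 3 ∣ 6) (ZMod 3) z = 0 → z = 0 := by decide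
  funext j
  fin_cases j
  · exact e0 _ (h1' 0)
  · exact e0 _ (h1' 1)
  · exact e0 _ (h1' 2)
  · exact e3 _ (h1' 3) h2'

/-- the elements of the group -/
def el (a b c : ZMod 2) (d : ZMod 6) : Grp inv := fun j =>
  match j with
  | 0 => a
  | 1 => b
  | 2 => c
  | 3 => d

/-- the sequence -/
def seq : List (Grp inv) :=
  [el 1 0 0 4, el 0 1 0 4, el 1 1 0 4, el 0 0 1 4, el 1 0 1 4, el 0 1 1 4, el 1 1 1 4,
    el 0 0 0 5, el 0 0 0 5, el 0 0 0 5]

theorem seq_odd : ∀ l ∈ seq.sublists, l ≠ [] → l.sum = 0 → l.length % 2 = 1 := by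
  decide +kernel

theorem davenport_le : davenport (Grp inv) ≤ 9 :=
  Nat.sInf_le ⟨by norm_num, fun S hS => exists_zero_sum phi psi inj S hS⟩

/-- **Q1 is false**, already for `G = C_2 ⊕ C_2 ⊕ C_2 ⊕ C_6`, `i = 2` and `𝒜 = {1}`. -/
theorem result : ¬ Q1 := by
  intro h
  have hinv : IsInvariants inv := by
    refine ⟨by decide, ?_⟩
    intro j
    revert j
    decide
  have hd := davenport_le
  let S : Multiset (Grp inv) := ↑(seq.take (davenport (Grp inv) + 1))
  have hS : S.card = davenport (Grp inv) + 2 - 1 := by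
    simp only [S, Multiset.coe_card, List.length_take]
    have : seq.length = 10 := rfl
    omega
  obtain ⟨T, hTS, hT0, hTsum, hTA⟩ := h 3 inv hinv 2 (by norm_num) (by decide) S hS {1}
    (by decide) (by decide)
  obtain ⟨l, rfl, hl⟩ : ∃ l : List (Grp inv), (l : Multiset (Grp inv)) = T ∧ l.Sublist seq := by
    induction T using Quotient.inductionOn with
    | h l =>
      have hsub : l.Subperm (seq.take (davenport (Grp inv) + 1)) := hTS
      obtain ⟨l', hp, hs⟩ := hsub
      exact ⟨l', Quotient.sound hp, hs.trans (List.take_sublist _ _)⟩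
  have hodd := seq_odd l (List.mem_sublists.2 hl) (by
    rintro rfl; exact hT0 rfl) (by simpa using hTsum)
  exact hTA 1 (Finset.mem_singleton_self 1) (by
    change l.length % 2 = 1 % 2
    rw [hodd])

end Pool.Agent.Results.MP_9fddba_co.Refuted
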